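import Pool.Agent.Q77.LU.StmU
import Pool.Agent.Q149.LU.TB

/-!
# Project LU (helper77): job DMAG (derivatives of the magnetic energy)
-/

set_option autoImplicit false

namespace Pool.Agent.Q261.LU

open Pool.Agent.Q77.LU
open Pool.Agent.Q149.LU (contDiff_expM)
open Pool.Agent.Q149.LU.T (lk mt_eU mt_eU_inv)
open Matrix Set Filter Topology
open scoped ContDiff Matrix.Norms.Frobenius

section

variable {N n D l : ℕ} {G : Subgroup (UU N)}

/-- the combination of the basis as a linear map -/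
noncomputable def linL (B : LieBasis G n) (k : Fin 4) : (Fin 4 → Fin n → ℝ) →ₗ[ℝ] Mt N where
  toFun := fun v => lin B (v k)
  map_add' := fun v w => lin_add B (v k) (w k)
  map_smul' := fun t v => lin_smul B t (v k)

lemma cd_lin (B : LieBasis G n) (k : Fin 4) :
    ContDiff ℝ ∞ (fun v : Fin 4 → Fin n → ℝ => lin B (v k)) :=
  (LinearMap.toContinuousLinearMap (linL B k)).contDiff

/-- real part of the trace as a linear map -/
noncomputable def rtr (N : ℕ) : Mt N →ₗ[ℝ] ℝ where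
  toFun := fun A => (trace A).re
  map_add' := fun A C => by simp
  map_smul' := fun t A => by simp

lemma cd_rtr (N : ℕ) : ContDiff ℝ ∞ (fun A : Mt N => (trace A).re) :=
  (LinearMap.toContinuousLinearMap (rtr N)).contDiff

/-- the energy of a plaquette as a function of the four link fields -/
noncomputable def w0 (B : LieBasis G n) (v : Fin 4 → Fin n → ℝ) : ℝ :=
  (trace (1 - NormedSpace.exp (lin B (v 0)) * NormedSpace.exp (lin B (v 1)) *
    NormedSpace.exp (-lin B (v 2)) * NormedSpace.exp (-lin B (v 3)))).re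

lemma cd_w0 (B : LieBasis G n) : ContDiff ℝ ∞ (w0 B) := by
  unfold w0
  refine (cd_rtr N).comp ?_
  refine contDiff_const.sub ?_
  have h0 := contDiff_expM.comp (cd_lin B 0)
  have h1 := contDiff_expM.comp (cd_lin B 1)
  have h2 := contDiff_expM.comp (cd_lin B 2).neg
  have h3 := contDiff_expM.comp (cd_lin B 3).neg
  exact ((h0.mul h1).mul h2).mul h3

lemma bd_w0 (B : LieBasis G n) : ∃ C : ℝ, 0 ≤ C ∧ ∀ (k : ℕ) (v : Fin 4 → Fin n → ℝ), k ≤ 4 →
    ‖v‖ ≤ 1 → ‖iteratedFDeriv ℝ k (w0 B) v‖ ≤ C := by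
  have h1 : ∀ k : ℕ, ∃ C : ℝ, ∀ v : Fin 4 → Fin n → ℝ, ‖v‖ ≤ 1 →
      ‖iteratedFDeriv ℝ k (w0 B) v‖ ≤ C := by
    intro k
    have hc : Continuous fun v => iteratedFDeriv ℝ k (w0 B) v :=
      (cd_w0 B).continuous_iteratedFDeriv (m := k) (by exact_mod_cast le_top)
    have hK : IsCompact (Metric.closedBall (0 : Fin 4 → Fin n → ℝ) 1) := isCompact_closedBall _ _
    obtain ⟨C, hC⟩ := hK.exists_bound_of_continuousOn hc.continuousOn
    exact ⟨C, fun v hv => hC v (by rwa [mem_closedBall_zero_iff])⟩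
  choose C hC using h1
  refine ⟨∑ k ∈ Finset.range 5, |C k|, Finset.sum_nonneg fun _ _ => abs_nonneg _,
    fun k v hk hv => ?_⟩
  have h2 : |C k| ≤ ∑ k ∈ Finset.range 5, |C k| :=
    Finset.single_le_sum (f := fun k => |C k|) (fun _ _ => abs_nonneg _)
      (Finset.mem_range.2 (by omega))
  exact (hC k v hv).trans ((le_abs_self _).trans h2)

/-- the links of a plaquette -/
def pl (x : Fin D → ZMod l) (i j : Fin D) : Fin 4 → Link D l :=
  ![(x, i), (x + unitv i, j), (x + unitv j, i), (x, j)]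

variable [NeZero l]

/-- the four link fields of a plaquette -/
noncomputable def LL (n : ℕ) (x : Fin D → ZMod l) (i j : Fin D) :
    (Link D l × Fin n → ℝ) →L[ℝ] (Fin 4 → Fin n → ℝ) :=
  ContinuousLinearMap.pi fun k => ContinuousLinearMap.pi fun a =>
    ContinuousLinearMap.proj (pl x i j k, a)

lemma LL_apply (x : Fin D → ZMod l) (i j : Fin D) (y : Link D l × Fin n → ℝ) (k : Fin 4)
    (a : Fin n) : LL n x i j y k a = y (pl x i j k, a) := rfl

lemma LL_bd {x : Fin D → ZMod l} {i j : Fin D} {y : Link D l × Fin n → ℝ} {c : ℝ} (hc : 0 ≤ c)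
    (h : ∀ q, |y q| ≤ c) : ‖LL n x i j y‖ ≤ c := by
  rw [pi_norm_le_iff_of_nonneg hc]
  intro k
  rw [pi_norm_le_iff_of_nonneg hc]
  intro a
  rw [LL_apply, Real.norm_eq_abs]
  exact h _

lemma LL_norm (x : Fin D → ZMod l) (i j : Fin D) : ‖LL n x i j‖ ≤ 1 := by
  refine ContinuousLinearMap.opNorm_le_bound _ zero_le_one fun y => ?_
  rw [one_mul]
  exact LL_bd (norm_nonneg y) fun q => norm_le_pi_norm y q

lemma term_eq (h0 : S_EXPG) (hG : IsClosed (G : Set (UU N))) (B : LieBasis G n)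
    (x : Fin D → ZMod l) (i j : Fin D) (y : Link D l × Fin n → ℝ) :
    (trace (1 - mt (plaq (eU B y) x i j))).re = w0 B (LL n x i j y) := by
  unfold plaq w0
  rw [mt_mul, mt_mul, mt_mul, mt_eU_inv h0 hG, mt_eU_inv h0 hG, mt_eU h0 hG, mt_eU h0 hG]
  rfl

lemma mag_eq (h0 : S_EXPG) (hG : IsClosed (G : Set (UU N))) (B : LieBasis G n) :
    (fun y : Link D l × Fin n → ℝ => magnetic (eU B y)) =
      fun y => ∑ t ∈ (Finset.univ : Finset ((Fin D → ZMod l) × Fin D × Fin D)).filter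
        (fun t => t.2.1 < t.2.2), (w0 B ∘ LL n t.1 t.2.1 t.2.2) y := by
  funext y
  unfold magnetic
  rw [Finset.sum_filter, Fintype.sum_prod_type]
  refine Finset.sum_congr rfl fun x _ => ?_
  rw [Fintype.sum_prod_type]
  refine Finset.sum_congr rfl fun i _ => Finset.sum_congr rfl fun j _ => ?_
  by_cases hij : i < j
  · rw [if_pos hij, if_pos hij, term_eq h0 hG]
    rfl
  · rw [if_neg hij, if_neg hij]

end

theorem t_DMAG (h1 : S_EXPG) : S_DMAG := by
  intro N n D G hG B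
  obtain ⟨C0, hC0, hb⟩ := bd_w0 B
  refine ⟨D, D * D * C0 + 1, by nlinarith [mul_nonneg (mul_nonneg (Nat.cast_nonneg (α := ℝ) D)
    (Nat.cast_nonneg (α := ℝ) D)) hC0], fun l _ => ?_⟩
  have hcd : ∀ t : (Fin D → ZMod l) × Fin D × Fin D,
      ContDiff ℝ ∞ (w0 B ∘ LL n t.1 t.2.1 t.2.2) := fun t =>
    (cd_w0 B).comp (LL n t.1 t.2.1 t.2.2).contDiff
  rw [mag_eq h1 hG B]
  refine ⟨ContDiff.sum fun t _ => hcd t, fun k y hk hy => ?_⟩
  rw [iteratedFDeriv_fun_sum_apply (fun t _ => ((hcd t).of_le (by exact_mod_cast le_top)).contDiffAt)]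
  have hterm : ∀ t : (Fin D → ZMod l) × Fin D × Fin D,
      ‖iteratedFDeriv ℝ k (w0 B ∘ LL n t.1 t.2.1 t.2.2) y‖ ≤ C0 := by
    intro t
    rw [ContinuousLinearMap.iteratedFDeriv_comp_right _ (cd_w0 B) y
      (i := k) (by exact_mod_cast le_top)]
    refine (ContinuousMultilinearMap.norm_compContinuousLinearMap_le _ _).trans ?_
    have h2 : ∏ _i : Fin k, ‖LL n t.1 t.2.1 t.2.2‖ ≤ 1 :=
      Finset.prod_le_one (fun _ _ => norm_nonneg _) fun _ _ => LL_norm _ _ _
    have h3 := hb k (LL n t.1 t.2.1 t.2.2 y) hk (LL_bd zero_le_one hy)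
    calc ‖iteratedFDeriv ℝ k (w0 B) (LL n t.1 t.2.1 t.2.2 y)‖ *
          ∏ _i : Fin k, ‖LL n t.1 t.2.1 t.2.2‖ ≤ C0 * 1 :=
          mul_le_mul h3 h2 (Finset.prod_nonneg fun _ _ => norm_nonneg _) hC0
      _ = C0 := mul_one _
  refine (norm_sum_le _ _).trans ((Finset.sum_le_sum fun t _ => hterm t).trans ?_)
  rw [Finset.sum_const, nsmul_eq_mul]
  have hcard : (((Finset.univ : Finset ((Fin D → ZMod l) × Fin D × Fin D)).filter
        (fun t => t.2.1 < t.2.2)).card : ℝ) ≤ (l : ℝ) ^ D * (D * D) := by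
    have h4 := Finset.card_filter_le (Finset.univ : Finset ((Fin D → ZMod l) × Fin D × Fin D))
        (fun t => t.2.1 < t.2.2)
    have h5 : (Finset.univ : Finset ((Fin D → ZMod l) × Fin D × Fin D)).card = l ^ D * (D * D) := by
      rw [Finset.card_univ, Fintype.card_prod, Fintype.card_prod, Fintype.card_fun, ZMod.card,
        Fintype.card_fin]
    rw [h5] at h4
    exact_mod_cast h4
  have hl : (0 : ℝ) ≤ (l : ℝ) ^ D := by positivity
  calc _ ≤ (l : ℝ) ^ D * (D * D) * C0 := mul_le_mul_of_nonneg_right hcard hC0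
    _ ≤ (D * D * C0 + 1) * (l : ℝ) ^ D := by nlinarith

end Pool.Agent.Q261.LU
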