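import Pool.Agent.Q77.LU.StmU
import Pool.Agent.Q177.LU.SQT

/-!
# Project LU (helper77): job GAINU (quantitative comparison of traces of square roots)
-/

set_option autoImplicit false

namespace Pool.Agent.Q261.LU

open Matrix Filter Topology Polynomial Finset
open Pool.Agent.Q77.LU (tsq S_GAINU)
open Pool.Agent.Q177.LU

/-- the coefficients of `1 - sqrt (1 - z)` -/
noncomputable def cc (j : ℕ) : ℝ := 2 * (catalan (j - 1) : ℝ) / 4 ^ j

lemma cc_nonneg (j : ℕ) : 0 ≤ cc j := by
  unfold cc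
  positivity

lemma cc_le (n : ℕ) : ∀ j, 1 ≤ j → j ≤ n → cc j ≤ (P n).coeff j := by
  induction n with
  | zero => intro j h1 h2; omega
  | succ n ih =>
    intro j h1 h2
    rw [P_coeff]
    obtain ⟨m, rfl⟩ : ∃ m, j = m + 1 := ⟨j - 1, by omega⟩
    rcases Nat.eq_zero_or_pos m with rfl | hm
    · have h3 : 0 ≤ ∑ x ∈ Finset.HasAntidiagonal.antidiagonal (0 + 1),
          (P n).coeff x.1 * (P n).coeff x.2 :=
        Finset.sum_nonneg fun x _ => mul_nonneg (P_nonneg n _) (P_nonneg n _)
      have h4 : cc (0 + 1) = 1 / 2 := by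
        unfold cc
        norm_num [catalan_zero]
      rw [if_pos (by norm_num), h4]
      linarith
    · obtain ⟨k, rfl⟩ : ∃ k, m = k + 1 := ⟨m - 1, by omega⟩
      rw [if_neg (by omega), zero_add, Finset.Nat.sum_antidiagonal_succ,
        Finset.Nat.sum_antidiagonal_succ']
      have h3 : ∑ x ∈ Finset.HasAntidiagonal.antidiagonal k, cc (x.1 + 1) * cc (x.2 + 1) ≤
          ∑ x ∈ Finset.HasAntidiagonal.antidiagonal k,
            (P n).coeff (x.1 + 1) * (P n).coeff (x.2 + 1) := by
        refine Finset.sum_le_sum fun x hx => ?_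
        have h5 : x.1 + x.2 = k := Finset.HasAntidiagonal.mem_antidiagonal.1 hx
        exact mul_le_mul (ih _ (by omega) (by omega)) (ih _ (by omega) (by omega)) (cc_nonneg _)
          (P_nonneg n _)
      have h6 : cc (k + 1 + 1) = 1 / 2 *
          ∑ x ∈ Finset.HasAntidiagonal.antidiagonal k, cc (x.1 + 1) * cc (x.2 + 1) := by
        unfold cc
        rw [show k + 1 + 1 - 1 = k + 1 by omega, catalan_succ', Nat.cast_sum, Finset.mul_sum,
          Finset.mul_sum, Finset.sum_div]
        refine Finset.sum_congr rfl fun x hx => ?_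
        have h5 : x.1 + x.2 = k := Finset.HasAntidiagonal.mem_antidiagonal.1 hx
        rw [← h5, show x.1 + 1 - 1 = x.1 by omega, show x.2 + 1 - 1 = x.2 by omega, Nat.cast_mul]
        field_simp
        ring
      have h7 := mul_nonneg (P_nonneg n 0) (P_nonneg n (k + 1 + 1))
      have h8 := mul_nonneg (P_nonneg n (0 + 1)) (P_nonneg n (k + 1))
      have h9 := mul_nonneg (P_nonneg n (k + 1 + 1)) (P_nonneg n 0)
      rw [h6]
      simp only [zero_add] at *
      linarith

lemma cb_sq (k : ℕ) (hk : 1 ≤ k) : ((4 : ℝ) ^ k) ^ 2 ≤ 4 * k * (k.centralBinom : ℝ) ^ 2 := by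
  induction k, hk using Nat.le_induction with
  | base =>
    rw [show Nat.centralBinom 1 = 2 by decide]
    norm_num
  | succ k hk ih =>
    have h1 : ((k : ℝ) + 1) * ((k + 1).centralBinom : ℝ) = 2 * (2 * k + 1) * k.centralBinom := by
      exact_mod_cast Nat.succ_mul_centralBinom_succ k
    have hk' : (1 : ℝ) ≤ k := by exact_mod_cast hk
    have h2 : ((4 : ℝ) ^ (k + 1)) ^ 2 = 16 * ((4 : ℝ) ^ k) ^ 2 := by ring
    have h3 : (((k + 1).centralBinom : ℝ)) ^ 2 * ((k : ℝ) + 1) ^ 2 =
        (2 * (2 * k + 1) * k.centralBinom) ^ 2 := by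
      rw [← h1]
      ring
    have hpos : (0 : ℝ) < (k : ℝ) + 1 := by linarith
    have h4 : 16 * (4 * k * (k.centralBinom : ℝ) ^ 2) * ((k : ℝ) + 1) ≤
        4 * (((k + 1).centralBinom : ℝ) ^ 2 * ((k : ℝ) + 1) ^ 2) := by
      rw [h3]
      have h5 : 0 ≤ (k.centralBinom : ℝ) ^ 2 := sq_nonneg _
      nlinarith [mul_nonneg h5 (sq_nonneg (k : ℝ))]
    rw [h2]
    push_cast
    have h6 : 16 * ((4 : ℝ) ^ k) ^ 2 * ((k : ℝ) + 1) ≤
        (4 * ((k : ℝ) + 1) * ((k + 1).centralBinom : ℝ) ^ 2) * ((k : ℝ) + 1) := by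
      calc 16 * ((4 : ℝ) ^ k) ^ 2 * ((k : ℝ) + 1)
          ≤ 16 * (4 * k * (k.centralBinom : ℝ) ^ 2) * ((k : ℝ) + 1) := by
            refine mul_le_mul_of_nonneg_right ?_ hpos.le
            linarith
        _ ≤ 4 * (((k + 1).centralBinom : ℝ) ^ 2 * ((k : ℝ) + 1) ^ 2) := h4
        _ = _ := by ring
    exact le_of_mul_le_mul_right h6 hpos

lemma cc_ge (j : ℕ) (hj : 1 ≤ j) : 1 / (4 * j * Real.sqrt j) ≤ cc j := by
  obtain ⟨k, rfl⟩ : ∃ k, j = k + 1 := ⟨j - 1, by omega⟩
  have hpos : (0 : ℝ) < (k : ℝ) + 1 := by positivity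
  have hs : 1 ≤ Real.sqrt ((k : ℝ) + 1) := by
    rw [Real.one_le_sqrt]
    have : (0 : ℝ) ≤ k := Nat.cast_nonneg k
    linarith
  have h1 : ((k : ℝ) + 1) * (catalan k : ℝ) = k.centralBinom := by
    exact_mod_cast succ_mul_catalan_eq_centralBinom k
  have h2 : cc (k + 1) = (k.centralBinom : ℝ) / (4 ^ k * (2 * ((k : ℝ) + 1))) := by
    unfold cc
    rw [show k + 1 - 1 = k by omega, ← h1]
    field_simp
    ring
  have h3 : (4 : ℝ) ^ k ≤ 2 * Real.sqrt ((k : ℝ) + 1) * k.centralBinom := by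
    rcases Nat.eq_zero_or_pos k with rfl | hk
    · simp
    · have h4 := cb_sq k hk
      have h5 : ((4 : ℝ) ^ k) ^ 2 ≤ (2 * Real.sqrt ((k : ℝ) + 1) * k.centralBinom) ^ 2 := by
        rw [mul_pow, mul_pow, Real.sq_sqrt hpos.le]
        have h6 : 0 ≤ (k.centralBinom : ℝ) ^ 2 := sq_nonneg _
        nlinarith
      exact le_of_sq_le_sq h5 (by positivity)
  rw [h2]
  push_cast
  rw [div_le_div_iff₀ (by positivity) (by positivity)]
  have h5 : (4 : ℝ) ^ k * (2 * ((k : ℝ) + 1)) ≤
      (2 * Real.sqrt ((k : ℝ) + 1) * k.centralBinom) * (2 * ((k : ℝ) + 1)) :=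
    mul_le_mul_of_nonneg_right h3 (by positivity)
  nlinarith

section

variable {ι : Type} [Fintype ι] [DecidableEq ι]

/-- few eigenvalues are small -/
lemma few {A : Matrix ι ι ℝ} (h : A.IsHermitian) (lam : ℝ) (n : ℕ)
    (hno : ¬ ∃ φ : Fin n → ι → ℝ, (∀ i j, ∑ x, φ i x * φ j x = if i = j then 1 else 0) ∧
      ∀ i, ∑ x, φ i x * (A.mulVec (φ i)) x < lam) :
    (univ.filter fun i => h.eigenvalues i < lam).card < n := by
  by_contra hcon
  push Not at hcon
  apply hno
  obtain ⟨t, ht, htc⟩ := Finset.exists_subset_card_eq hcon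
  let e : Fin n ≃ t := (Fintype.equivFinOfCardEq (by rw [Fintype.card_coe, htc])).symm
  have horth : ∀ i j : ι, ∑ x, (h.eigenvectorBasis i) x * (h.eigenvectorBasis j) x =
      if i = j then 1 else 0 := by
    intro i j
    have h1 := orthonormal_iff_ite.1 h.eigenvectorBasis.orthonormal i j
    rw [← h1, PiLp.inner_apply]
    refine Finset.sum_congr rfl fun x _ => ?_
    rw [RCLike.inner_apply]
    simp
    ring
  refine ⟨fun i x => (h.eigenvectorBasis (e i : ι)) x, fun i j => ?_, fun i => ?_⟩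
  · rw [horth]
    by_cases hij : i = j
    · rw [if_pos hij, if_pos (by rw [hij])]
    · rw [if_neg hij, if_neg]
      intro h'
      exact hij (e.injective (Subtype.ext h'))
  · have h1 := h.mulVec_eigenvectorBasis (e i : ι)
    have h2 : (A.mulVec fun x => (h.eigenvectorBasis (e i : ι)) x) =
        h.eigenvalues (e i : ι) • fun x => (h.eigenvectorBasis (e i : ι)) x := h1
    rw [h2]
    have h3 : ∑ x, (h.eigenvectorBasis (e i : ι)) x *
        (h.eigenvalues (e i : ι) • fun x => (h.eigenvectorBasis (e i : ι)) x) x =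
        h.eigenvalues (e i : ι) * ∑ x, (h.eigenvectorBasis (e i : ι)) x *
          (h.eigenvectorBasis (e i : ι)) x := by
      rw [Finset.mul_sum]
      refine Finset.sum_congr rfl fun x _ => ?_
      rw [Pi.smul_apply, smul_eq_mul]
      ring
    rw [h3, horth, if_pos rfl, mul_one]
    exact (Finset.mem_filter.1 (ht (e i).2)).2

end

theorem t_GAINU : S_GAINU := by
  classical
  refine ⟨40, by norm_num, ?_⟩
  intro ι _ _ _ A B c lam n hc hA hB hcA hcB hk hn hlam hlc hno
  set m : ℝ := (Fintype.card ι : ℝ) with hm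
  have hm1 : 1 ≤ m := by
    rw [hm]
    exact_mod_cast Fintype.card_pos
  have hz : ∀ (A : Matrix ι ι ℝ) (hA : A.PosSemidef), (c • (1 : Matrix ι ι ℝ) - A).PosSemidef →
      (∀ i, 0 ≤ 1 - hA.1.eigenvalues i / c) ∧ (∀ i, 1 - hA.1.eigenvalues i / c ≤ 1) ∧
        (∀ k : ℕ, trace ((1 - (1 / c) • A) ^ k) = ∑ i, (1 - hA.1.eigenvalues i / c) ^ k) ∧
        tsq A = Real.sqrt c * ∑ i, Real.sqrt (1 - (1 - hA.1.eigenvalues i / c)) := by
    intro A hA hcA
    refine ⟨?_, ?_, ?_, ?_⟩
    · intro i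
      have h1 := eig_le hA.1 c hcA i
      have h2 : hA.1.eigenvalues i / c ≤ 1 := (div_le_one hc).2 h1
      linarith
    · intro i
      have h1 := div_nonneg (hA.eigenvalues_nonneg i) hc.le
      linarith
    · intro k
      have h1 := tr_pol hA.1 ((1 - C (1 / c) * X) ^ k)
      have h2 : aeval A ((1 - C (1 / c) * X) ^ k) = (1 - (1 / c) • A) ^ k := by
        rw [map_pow, map_sub, map_one, map_mul, aeval_C, aeval_X, Algebra.algebraMap_eq_smul_one,
          smul_mul_assoc, one_mul]
      rw [h2] at h1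
      rw [h1]
      refine Finset.sum_congr rfl fun i _ => ?_
      rw [eval_pow, eval_sub, eval_one, eval_mul, eval_C, eval_X]
      congr 1
      ring
    · rw [tsq_eq hA.1, Finset.mul_sum]
      refine Finset.sum_congr rfl fun i _ => ?_
      rw [← Real.sqrt_mul hc.le]
      congr 1
      field_simp
      ring
  obtain ⟨hz0, hz1, hz2, hz3⟩ := hz A hA hcA
  obtain ⟨hw0, hw1, hw2, hw3⟩ := hz B hB hcB
  set z : ι → ℝ := fun i => 1 - hA.1.eigenvalues i / c with hzdef
  set w : ι → ℝ := fun i => 1 - hB.1.eigenvalues i / c with hwdef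
  have hk' : ∀ k : ℕ, ∑ i, z i ^ k ≤ ∑ i, w i ^ k := by
    intro k
    rw [← hz2 k, ← hw2 k]
    exact hk k
  have hfew := few hA.1 lam n hno
  -- the index
  set k1 : ℕ := ⌈c / lam * (2 * m)⌉₊ with hk1
  have hcl : 1 ≤ c / lam := (one_le_div hlam).2 hlc
  have hx2 : 2 ≤ c / lam * (2 * m) := by nlinarith
  have hk1a : c / lam * (2 * m) ≤ k1 := Nat.le_ceil _
  have hk1b : (k1 : ℝ) ≤ 3 * m * (c / lam) := by
    have h1 := (Nat.ceil_lt_add_one (show 0 ≤ c / lam * (2 * m) by linarith)).le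
    rw [← hk1] at h1
    nlinarith
  have hk1pos : (0 : ℝ) < k1 := by linarith
  have hk1n : 1 ≤ k1 := by
    have : 0 < k1 := by exact_mod_cast hk1pos
    omega
  -- the power sums
  have hgap : ∀ j : ℕ, k1 ≤ j → 1 / 2 ≤ ∑ i, w i ^ j - ∑ i, z i ^ j := by
    intro j hj
    have h1 : (n : ℝ) ≤ ∑ i, w i ^ j := by
      rw [← hw2 j]
      exact hn j
    have hzl : ∀ i, lam ≤ hA.1.eigenvalues i → z i ^ j ≤ 1 / (2 * m) := by
      intro i hi
      have e1 : z i ≤ 1 - lam / c := by
        have := div_le_div_of_nonneg_right hi hc.le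
        simp only [hzdef]
        linarith
      have e2 : (1 - lam / c) ≤ Real.exp (-(lam / c)) := by
        have := Real.add_one_le_exp (-(lam / c))
        linarith
      have e3 : z i ^ j ≤ Real.exp (-(lam / c)) ^ j := pow_le_pow_left₀ (hz0 i) (e1.trans e2) j
      have e4 : Real.exp (-(lam / c)) ^ j = Real.exp (-(j * (lam / c))) := by
        rw [← Real.exp_nat_mul]
        congr 1
        ring
      have e5 : 2 * m ≤ j * (lam / c) := by
        have e6 : (k1 : ℝ) ≤ j := by exact_mod_cast hj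
        have e7 : c / lam * (2 * m) * (lam / c) = 2 * m := by
          field_simp
        rw [← e7]
        exact mul_le_mul_of_nonneg_right (hk1a.trans e6) (by positivity)
      have e8 : Real.exp (-(j * (lam / c))) ≤ Real.exp (-(2 * m)) :=
        Real.exp_le_exp.2 (by linarith)
      have e9 : Real.exp (-(2 * m)) ≤ 1 / (2 * m) := by
        rw [Real.exp_neg, ← one_div]
        refine one_div_le_one_div_of_le (by linarith) ?_
        have := Real.add_one_le_exp (2 * m)
        linarith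
      rw [e4] at e3
      linarith
    have h2 : ∑ i, z i ^ j ≤ (n : ℝ) - 1 + 1 / 2 := by
      have h3 : ∑ i, z i ^ j ≤ ∑ i, ((if hA.1.eigenvalues i < lam then 1 else 0) + 1 / (2 * m)) := by
        refine Finset.sum_le_sum fun i _ => ?_
        have hpos : 0 ≤ 1 / (2 * m) := by positivity
        by_cases hi : hA.1.eigenvalues i < lam
        · rw [if_pos hi]
          have := pow_le_one₀ (n := j) (hz0 i) (hz1 i)
          linarith
        · rw [if_neg hi, zero_add]
          exact hzl i (not_lt.1 hi)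
      have h4 : ∑ i, ((if hA.1.eigenvalues i < lam then (1 : ℝ) else 0) + 1 / (2 * m)) =
          ((univ.filter fun i => hA.1.eigenvalues i < lam).card : ℝ) + 1 / 2 := by
        rw [Finset.sum_add_distrib, Finset.sum_boole, Finset.sum_const, Finset.card_univ,
          nsmul_eq_mul, ← hm]
        congr 1
        field_simp
      have h5 : ((univ.filter fun i => hA.1.eigenvalues i < lam).card : ℝ) ≤ (n : ℝ) - 1 := by
        have : (univ.filter fun i => hA.1.eigenvalues i < lam).card + 1 ≤ n := hfew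
        have h6 : (((univ.filter fun i => hA.1.eigenvalues i < lam).card : ℝ)) + 1 ≤ n := by
          exact_mod_cast this
        linarith
      linarith
    linarith
  -- the gain
  have hcmp := cmp hz0 hz1 hw0 hw1 hk' (1 / (16 * Real.sqrt (2 * k1))) (by
    filter_upwards [eventually_ge_atTop (2 * k1)] with N hN
    rw [diff_eq]
    have h0 : ∀ j, 0 ≤ (P N).coeff j * (∑ i, w i ^ j - ∑ i, z i ^ j) := fun j =>
      mul_nonneg (P_nonneg N j) (sub_nonneg.2 (hk' j))
    have hj : ∀ j ∈ Finset.Ico k1 (2 * k1), 1 / (8 * k1 * Real.sqrt (2 * k1)) * (1 / 2) ≤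
        (P N).coeff j * (∑ i, w i ^ j - ∑ i, z i ^ j) := by
      intro j hj
      obtain ⟨ha, hb⟩ := Finset.mem_Ico.1 hj
      have h1 := cc_ge j (by omega)
      have h2 := cc_le N j (by omega) (by omega)
      have hjb : (j : ℝ) ≤ 2 * k1 := by exact_mod_cast hb.le
      have hjp : (0 : ℝ) < j := by
        have : 0 < j := by omega
        exact_mod_cast this
      have hsj : Real.sqrt j ≤ Real.sqrt (2 * k1) := Real.sqrt_le_sqrt hjb
      have h3 : 1 / (8 * k1 * Real.sqrt (2 * k1)) ≤ 1 / (4 * j * Real.sqrt j) := by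
        refine one_div_le_one_div_of_le (by positivity) ?_
        calc 4 * (j : ℝ) * Real.sqrt j ≤ 4 * (2 * k1) * Real.sqrt (2 * k1) :=
              mul_le_mul (by linarith) hsj (Real.sqrt_nonneg _) (by positivity)
          _ = 8 * k1 * Real.sqrt (2 * k1) := by ring
      exact mul_le_mul ((h3.trans h1).trans h2) (hgap j ha) (by norm_num) (P_nonneg N j)
    have hsub : Finset.Ico k1 (2 * k1) ⊆ Finset.range ((P N).natDegree + 1) := by
      intro j hj'
      obtain ⟨ha, hb⟩ := Finset.mem_Ico.1 hj'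
      rw [Finset.mem_range, Nat.lt_succ_iff]
      apply le_natDegree_of_ne_zero
      have h1 := cc_ge j (by omega)
      have h2 := cc_le N j (by omega) (by omega)
      have hjp : (0 : ℝ) < j := by
        have : 0 < j := by omega
        exact_mod_cast this
      have h3 : 0 < 1 / (4 * (j : ℝ) * Real.sqrt j) := by positivity
      exact (h3.trans_le (h1.trans h2)).ne'
    calc 1 / (16 * Real.sqrt (2 * k1))
        = ∑ j ∈ Finset.Ico k1 (2 * k1), 1 / (8 * k1 * Real.sqrt (2 * k1)) * (1 / 2) := by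
          rw [Finset.sum_const, Nat.card_Ico, nsmul_eq_mul, show 2 * k1 - k1 = k1 by omega]
          field_simp
          ring
      _ ≤ ∑ j ∈ Finset.Ico k1 (2 * k1), (P N).coeff j * (∑ i, w i ^ j - ∑ i, z i ^ j) :=
          Finset.sum_le_sum hj
      _ ≤ _ := Finset.sum_le_sum_of_subset_of_nonneg hsub fun j _ _ => h0 j)
  have hcs : 0 < Real.sqrt c := Real.sqrt_pos.2 hc
  rw [hz3, hw3]
  have hfin : Real.sqrt lam / (40 * m) ≤ Real.sqrt c * (1 / (16 * Real.sqrt (2 * k1))) := by
    rw [mul_one_div, div_le_div_iff₀ (by positivity) (by positivity)]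
    have h1 : (Real.sqrt lam * (16 * Real.sqrt (2 * k1))) ^ 2 ≤
        (Real.sqrt c * (40 * m)) ^ 2 := by
      rw [mul_pow, mul_pow, mul_pow, mul_pow, Real.sq_sqrt hlam.le, Real.sq_sqrt (by positivity),
        Real.sq_sqrt hc.le]
      have h2 : lam * k1 ≤ 3 * m * c := by
        have := mul_le_mul_of_nonneg_left hk1b hlam.le
        have e : lam * (3 * m * (c / lam)) = 3 * m * c := by
          field_simp
        rw [e] at this
        exact this
      have h3 : m * c ≤ m ^ 2 * c := by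
        have h4 : m ≤ m ^ 2 := by nlinarith
        exact mul_le_mul_of_nonneg_right h4 hc.le
      nlinarith
    exact le_of_sq_le_sq h1 (by positivity)
  calc Real.sqrt c * ∑ i, Real.sqrt (1 - w i) + Real.sqrt lam / (40 * m)
      ≤ Real.sqrt c * ∑ i, Real.sqrt (1 - w i) +
        Real.sqrt c * (1 / (16 * Real.sqrt (2 * k1))) := by linarith
    _ = Real.sqrt c * (∑ i, Real.sqrt (1 - w i) + 1 / (16 * Real.sqrt (2 * k1))) := by ring
    _ ≤ _ := mul_le_mul_of_nonneg_left hcmp hcs.le

end Pool.Agent.Q261.LU
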